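import Pool.Agent.helper15.DH.Spec

/-!
# MOD GRP: grouping the products of two variables
-/

set_option autoImplicit false

open Complex MeasureTheory

namespace Pool.Agent.DH

open Pool.Agent.helper84.DM Pool.Agent.helper78.ED

theorem GRP : GRP_stmt := by
  intro N L D F hF hD
  rw [← Finset.sum_product']
  have hmaps : ∀ p ∈ Finset.Ioc N (2 * N) ×ˢ IL L,
      p.1 * p.2 ∈ Finset.Ioc (N * L) (16 * (N * L)) := by
    intro p hp
    obtain ⟨h1, h2⟩ := Finset.mem_product.1 hp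
    obtain ⟨h1a, h1b⟩ := Finset.mem_Ioc.1 h1
    obtain ⟨h2a, h2b⟩ := Finset.mem_Ioc.1 h2
    refine Finset.mem_Ioc.2 ⟨Nat.mul_lt_mul'' h1a h2a, ?_⟩
    calc p.1 * p.2 ≤ 2 * N * (8 * L) := Nat.mul_le_mul h1b h2b
      _ = 16 * (N * L) := by ring
  rw [← Finset.sum_fiberwise_of_maps_to hmaps, Finset.mul_sum]
  refine Finset.sum_le_sum fun k hk => ?_
  obtain ⟨hk1, hk2⟩ := Finset.mem_Ioc.1 hk
  have hk0 : 1 ≤ k := by omega
  have hcard : ((Finset.Ioc N (2 * N) ×ˢ IL L).filter fun p => p.1 * p.2 = k).card ≤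
      k.divisors.card := by
    refine Finset.card_le_card_of_injOn (fun p => p.1) ?_ ?_
    · intro p hp
      have hp' := (Finset.mem_filter.1 hp).2
      exact Nat.mem_divisors.2 ⟨⟨p.2, hp'.symm⟩, by omega⟩
    · intro p hp q hq hpq
      obtain ⟨hp1, hp2⟩ := Finset.mem_filter.1 hp
      obtain ⟨_, hq2⟩ := Finset.mem_filter.1 hq
      have h1 : 0 < p.1 := by
        have := (Finset.mem_Ioc.1 (Finset.mem_product.1 hp1).1).1
        omega
      have hpq' : p.1 = q.1 := hpq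
      refine Prod.ext hpq' (Nat.eq_of_mul_eq_mul_left h1 ?_)
      rw [hp2, hpq', hq2]
  have hsum : ∑ p ∈ (Finset.Ioc N (2 * N) ×ˢ IL L).filter (fun p => p.1 * p.2 = k),
      F (p.1 * p.2) =
      (((Finset.Ioc N (2 * N) ×ˢ IL L).filter fun p => p.1 * p.2 = k).card : ℝ) * F k := by
    rw [Finset.sum_congr rfl fun p hp => congrArg F (Finset.mem_filter.1 hp).2,
      Finset.sum_const, nsmul_eq_mul]
  rw [hsum]
  refine mul_le_mul_of_nonneg_right ?_ (hF k)
  refine le_trans ?_ (hD k hk0 hk2)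
  unfold d
  exact_mod_cast hcard

end Pool.Agent.DH
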