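import Pool.Agent.helper48.DH.SpecY

/-!
# d2:yESC (MP_5823cb_al): `Es s f` is near `f` (helper59)
-/

set_option autoImplicit false

open Filter Topology MeasureTheory
open scoped commutatorElement

namespace Pool.Agent.helper90.DH

open Pool.Agent.helper64.D2

theorem yESC_mem (s : ℕ) (x : ℝ) : x ∈ cell s (ci s x) := by
  have hH : (0 : ℝ) < 2 ^ s := by positivity
  unfold cell ci
  constructor
  · rw [div_le_iff₀ hH, mul_comm]; exact Int.floor_le _
  · rw [lt_div_iff₀ hH, mul_comm]; exact Int.lt_floor_add_one _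

theorem yESC_le (s : ℕ) (k : ℤ) : (k : ℝ) / 2 ^ s ≤ ((k : ℝ) + 1) / 2 ^ s := by
  have hH : (0 : ℝ) < 2 ^ s := by positivity
  gcongr
  linarith

theorem yESC_vol (s : ℕ) (k : ℤ) : volume.real (cell s k) = 1 / 2 ^ s := by
  unfold cell
  rw [Real.volume_real_Ico_of_le (yESC_le s k)]
  ring

theorem yESC_fin (s : ℕ) (k : ℤ) : volume (cell s k) < ⊤ := by
  unfold cell
  rw [Real.volume_Ico]
  exact ENNReal.ofReal_lt_top

theorem yESC_one (s : ℕ) (k : ℤ) (c : ℝ) : (∫ _ in cell s k, c) = c / 2 ^ s := by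
  rw [setIntegral_const, yESC_vol, smul_eq_mul]
  ring

theorem yESC_lin (s : ℕ) (k : ℤ) : (∫ t in cell s k, (t - ((k : ℝ) + 1 / 2) / 2 ^ s)) = 0 := by
  unfold cell
  rw [integral_Ico_eq_integral_Ioo, ← integral_Ioc_eq_integral_Ioo, ← intervalIntegral.integral_of_le (yESC_le s k)]
  rw [intervalIntegral.integral_sub intervalIntegral.intervalIntegrable_id intervalIntegrable_const]
  rw [integral_id, intervalIntegral.integral_const, smul_eq_mul]
  ring

theorem yESC : yESC_stmt := by
  intro s f η hf x hx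
  obtain ⟨hm, ⟨B, hB⟩, -⟩ := hf
  have hH : (0 : ℝ) < 2 ^ s := by positivity
  have hxX := yESC_mem s x
  have hη : 0 ≤ η := by
    have := hx x hxX
    simpa using this
  have hbd : ∀ t ∈ cell s (ci s x), |t - mid s x| ≤ 1 / (2 * 2 ^ s) := by
    intro t ht
    obtain ⟨h1, h2⟩ := ht
    have e1 : (ci s x : ℝ) / 2 ^ s = mid s x - 1 / (2 * 2 ^ s) := by
      unfold mid
      field_simp
      ring
    have e2 : ((ci s x : ℝ) + 1) / 2 ^ s = mid s x + 1 / (2 * 2 ^ s) := by
      unfold mid
      field_simp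
      ring
    rw [abs_le]
    constructor
    · linarith
    · linarith
  have hms : MeasurableSet (cell s (ci s x)) := measurableSet_Ico
  have hfi : IntegrableOn f (cell s (ci s x)) := by
    refine Measure.integrableOn_of_bounded (M := B) (yESC_fin s _).ne hm.aestronglyMeasurable ?_
    exact Eventually.of_forall fun t => hB t
  have hgi : IntegrableOn (fun t => (t - mid s x) * f t) (cell s (ci s x)) := by
    refine Measure.integrableOn_of_bounded (M := 1 / (2 * 2 ^ s) * B) (yESC_fin s _).ne ?_ ?_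
    · exact ((measurable_id.sub_const _).mul hm).aestronglyMeasurable
    · refine (ae_restrict_iff' hms).2 (Eventually.of_forall fun t ht => ?_)
      rw [Real.norm_eq_abs, abs_mul]
      exact mul_le_mul (hbd t ht) (hB t) (abs_nonneg _) (by positivity)
  have hci : IntegrableOn (fun _ : ℝ => f x) (cell s (ci s x)) := by
    exact integrableOn_const (yESC_fin s _).ne
  have hli : IntegrableOn (fun t => (t - mid s x) * f x) (cell s (ci s x)) := by
    refine Measure.integrableOn_of_bounded (M := 1 / (2 * 2 ^ s) * |f x|) (yESC_fin s _).ne ?_ ?_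
    · exact ((measurable_id.sub_const _).mul_const _).aestronglyMeasurable
    · refine (ae_restrict_iff' hms).2 (Eventually.of_forall fun t ht => ?_)
      rw [Real.norm_eq_abs, abs_mul]
      exact mul_le_mul_of_nonneg_right (hbd t ht) (abs_nonneg _)
  have I0 : (∫ t in cell s (ci s x), (f t - f x)) = (∫ t in cell s (ci s x), f t) - f x / 2 ^ s := by
    rw [integral_sub hfi hci, yESC_one]
  have I1 : (∫ t in cell s (ci s x), ((t - mid s x) * (f t - f x))) = ∫ t in cell s (ci s x), (t - mid s x) * f t := by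
    have e : (∫ t in cell s (ci s x), ((t - mid s x) * (f t - f x))) = ∫ t in cell s (ci s x), ((t - mid s x) * f t - (t - mid s x) * f x) := by
      congr 1
      funext t
      ring
    rw [e, integral_sub hgi hli, integral_mul_const]
    have := yESC_lin s (ci s x)
    unfold mid
    rw [this]
    ring
  have b0 : |∫ t in cell s (ci s x), (f t - f x)| ≤ η * (1 / 2 ^ s) := by
    have := norm_setIntegral_le_of_norm_le_const (f := fun t => f t - f x) (C := η) (yESC_fin s (ci s x)) (fun t ht => hx t ht)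
    rw [yESC_vol] at this
    exact this
  have b1 : |∫ t in cell s (ci s x), ((t - mid s x) * (f t - f x))| ≤ (1 / (2 * 2 ^ s) * η) * (1 / 2 ^ s) := by
    have := norm_setIntegral_le_of_norm_le_const (f := fun t => (t - mid s x) * (f t - f x)) (C := 1 / (2 * 2 ^ s) * η) (yESC_fin s (ci s x)) (fun t ht => by
      rw [Real.norm_eq_abs, abs_mul]
      exact mul_le_mul (hbd t ht) (hx t ht) (abs_nonneg _) (by positivity))
    rw [yESC_vol] at this
    exact this
  have hE : Es s f x - f x = 2 ^ s * (∫ t in cell s (ci s x), (f t - f x)) + 12 * (2 ^ s) ^ 3 * ((x - mid s x) * ∫ t in cell s (ci s x), ((t - mid s x) * (f t - f x))) := by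
    rw [I0, I1]
    unfold Es
    rw [mul_comm 3 s, pow_mul]
    field_simp
    ring
  rw [hE]
  have c0 : |2 ^ s * (∫ t in cell s (ci s x), (f t - f x))| ≤ η := by
    rw [abs_mul, abs_of_pos hH]
    calc 2 ^ s * |∫ t in cell s (ci s x), (f t - f x)| ≤ 2 ^ s * (η * (1 / 2 ^ s)) := by gcongr
      _ = η := by field_simp
  have c1 : |12 * (2 ^ s) ^ 3 * ((x - mid s x) * ∫ t in cell s (ci s x), ((t - mid s x) * (f t - f x)))| ≤ 3 * η := by
    rw [abs_mul (12 * (2 ^ s) ^ 3), abs_mul (x - mid s x), abs_of_pos (show (0 : ℝ) < 12 * (2 ^ s) ^ 3 by positivity)]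
    calc 12 * (2 ^ s) ^ 3 * (|x - mid s x| * |∫ t in cell s (ci s x), ((t - mid s x) * (f t - f x))|)
        ≤ 12 * (2 ^ s) ^ 3 * (1 / (2 * 2 ^ s) * ((1 / (2 * 2 ^ s) * η) * (1 / 2 ^ s))) := by
          have := hbd x hxX
          gcongr
      _ = 3 * η := by
          field_simp
          ring
  calc _ ≤ _ := abs_add_le _ _
    _ ≤ η + 3 * η := add_le_add c0 c1
    _ = 4 * η := by ring

end Pool.Agent.helper90.DH
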